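import Pool.Agent.Helper53.KC.Goals

/-!
# KC-CNTS: the number of the stable sets

Proof of `Pool.Agent.Helper53.KC.CntsStmt` from `ContStmt` and `SupStmt`.
-/

namespace Pool.Agent.Helper13.KC

open Finset Pool.Agent.Helper53.KC

theorem adj_symm {n : ℕ} {X Y : Finset (Fin n)} (h : adj X Y) : adj Y X := by
  refine ⟨h.1.symm, ?_⟩
  rw [inter_comm, h.2, h.1]

theorem adj_irrefl {n : ℕ} (X : Finset (Fin n)) : ¬ adj X X := by
  intro h
  have h2 := h.2
  rw [inter_self] at h2
  omega

/-- The subsets of size at most `u`. -/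
def sub {n : ℕ} (r u : ℕ) : Finset (Finset (Finset (Fin n))) :=
  (range (u + 1)).biUnion fun j => powersetCard j (V n r)

theorem card_V (n r : ℕ) : (V n r).card = n.choose r := by
  unfold V
  rw [card_powersetCard, card_univ, Fintype.card_fin]

theorem card_sub (n r u : ℕ) : (sub (n := n) r u).card ≤ bl (n.choose r) u := by
  unfold sub bl
  refine card_biUnion_le.trans (le_of_eq ?_)
  refine sum_congr rfl fun j _ => ?_
  rw [card_powersetCard, card_V]

theorem mem_sub {n r u : ℕ} {U : Finset (Finset (Fin n))} (h : U ⊆ V n r) (hu : U.card ≤ u) :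
    U ∈ sub (n := n) r u := by
  unfold sub
  rw [mem_biUnion]
  exact ⟨U.card, mem_range.mpr (by omega), mem_powersetCard.mpr ⟨h, rfl⟩⟩

/-- CNTS. -/
theorem cnts (hcont : ContStmt) (hsup : SupStmt) : CntsStmt := by
  intro n r D1 D2 u1 a1 u2 a2 hr hrn hD1 hD2 h1 h2 h3 h4
  have hpos : 0 < r * (n - r + 1) := Nat.mul_pos (by omega) (by omega)
  obtain ⟨c1, hc1, hl1, hf1⟩ := hcont (Finset (Fin n)) adj (V n r) D1 hD1
    (fun _ _ h => adj_symm h) adj_irrefl
  have hex : ∀ U1 : Finset (Finset (Fin n)), _ := fun U1 =>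
    hcont (Finset (Fin n)) adj (c1 U1) D2 hD2 (fun _ _ h => adj_symm h) adj_irrefl
  choose c2 hc2 hl2 hf2 using hex
  have ha1 : ∀ U1, (c1 U1).card ≤ a1 := by
    intro U1
    have h5 := hsup n r D1 (c1 U1) (hc1 U1) (hl1 U1) hr hrn.le
    have h6 := h5.trans_lt h2
    have h7 := Nat.lt_of_mul_lt_mul_right h6
    omega
  have ha2 : ∀ U1 U2, (c2 U1 U2).card ≤ a2 := by
    intro U1 U2
    have h5 := hsup n r D2 (c2 U1 U2) ((hc2 U1 U2).trans (hc1 U1)) (hl2 U1 U2) hr hrn.le
    have h6 := h5.trans_lt h4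
    have h7 := Nat.lt_of_mul_lt_mul_right h6
    omega
  classical
  have hsub : ((V n r \ ∅).powerset.filter Stb) ⊆
      (sub (n := n) r u1 ×ˢ sub (n := n) r u2).biUnion fun p =>
        (c2 p.1 p.2).powerset.image fun Z => (p.1 \ c1 p.1) ∪ (p.2 \ c2 p.1 p.2) ∪ Z := by
    intro S hS
    rw [mem_filter, mem_powerset, sdiff_empty] at hS
    obtain ⟨hSV, hst⟩ := hS
    obtain ⟨U1, hU1S, hU1V, hU1c, hU1⟩ := hf1 S
    obtain ⟨U2, hU2S, hU2A, hU2c, hU2⟩ := hf2 U1 S
    have hu1 : U1.card ≤ u1 := by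
      rw [card_V] at hU1c
      have h5 : U1.card * D1 < (u1 + 1) * D1 := by
        rw [mul_comm (u1 + 1) D1]
        exact hU1c.trans_lt h1
      have h6 := Nat.lt_of_mul_lt_mul_right h5
      omega
    have hu2 : U2.card ≤ u2 := by
      have h5 : U2.card * D2 < (u2 + 1) * D2 := by
        rw [mul_comm (u2 + 1) D2]
        exact (hU2c.trans (ha1 U1)).trans_lt h3
      have h6 := Nat.lt_of_mul_lt_mul_right h5
      omega
    rw [mem_biUnion]
    refine ⟨(U1, U2), mem_product.mpr ⟨mem_sub hU1V hu1,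
      mem_sub (hU2A.trans (hc1 U1)) hu2⟩, ?_⟩
    rw [mem_image]
    refine ⟨S ∩ c2 U1 U2, mem_powerset.mpr inter_subset_right, ?_⟩
    ext v
    simp only [mem_union, mem_sdiff, mem_inter]
    constructor
    · rintro ((⟨h5, -⟩ | ⟨h5, -⟩) | ⟨h5, -⟩)
      · exact hU1S h5
      · exact hU2S h5
      · exact h5
    · intro hv
      by_cases hA2 : v ∈ c2 U1 U2
      · exact Or.inr ⟨hv, hA2⟩
      · left
        by_cases hA1 : v ∈ c1 U1
        · right
          rcases hU2 v hA1 hA2 with h5 | ⟨u, hu, h6⟩ | h5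
          · exact ⟨h5, hA2⟩
          · exact absurd h6 (hst u (hU2S hu) v hv)
          · exact absurd hv h5
        · left
          rcases hU1 v (hSV hv) hA1 with h5 | ⟨u, hu, h6⟩ | h5
          · exact ⟨h5, hA1⟩
          · exact absurd h6 (hst u (hU1S hu) v hv)
          · exact absurd hv h5
  have hcard := card_le_card hsub
  have hist : istab n r ∅ = ((V n r \ ∅).powerset.filter Stb).card := by
    unfold istab
    congr!
  rw [hist]
  refine hcard.trans ?_
  refine (card_biUnion_le_card_mul _ _ (2 ^ a2) ?_).trans ?_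
  · intro p _
    refine card_image_le.trans ?_
    rw [card_powerset]
    exact Nat.pow_le_pow_right (by norm_num) (ha2 p.1 p.2)
  · rw [card_product]
    exact Nat.mul_le_mul_right _ (Nat.mul_le_mul (card_sub n r u1) (card_sub n r u2))

end Pool.Agent.Helper13.KC
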