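import Pool.Agent.Helper94.KC.GoalsC

/-!
# Project KC (MP_bf413e_co), packet KC-DB

Cycles in a disc bound: `db : StmtEV → StmtRK → StmtDB`.
-/

set_option autoImplicit false

namespace Pool.Agent.Helper13.KC

open scoped Classical
open Finset
open Pool.Agent.Helper94.KC

theorem bd_empty {V : Type} [Fintype V] (T : Finset (Finset V)) : bd T ∅ = ∅ := by
  ext e
  simp [bd]

theorem ed_mono {V : Type} [Fintype V] {D T : Finset (Finset V)} (h : D ⊆ T) : ed D ⊆ ed T := by
  intro e he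
  simp only [ed, mem_filter, mem_univ, true_and] at he ⊢
  obtain ⟨h1, t, ht, h2⟩ := he
  exact ⟨h1, t, h ht, h2⟩

theorem gr_ed {V : Type} [Fintype V] (D : Finset (Finset V)) : gr (ed D) = sk D := by
  ext u v
  constructor
  · rintro ⟨h, h1⟩
    simp only [ed, mem_filter, mem_univ, true_and] at h1
    obtain ⟨_, t, ht, h2⟩ := h1
    exact ⟨h, t, ht, h2 (mem_insert_self u {v}), h2 (mem_insert_of_mem (mem_singleton_self v))⟩
  · rintro ⟨h, t, ht, hu, hv⟩
    refine ⟨h, ?_⟩
    simp only [ed, mem_filter, mem_univ, true_and]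
    exact ⟨card_pair h, t, ht, insert_subset hu (singleton_subset_iff.mpr hv)⟩

/-- the edges at a vertex, of a triangulated surface: if the edge `x v` is not in the boundary of
`D`, all the triangles at the edge are in `D` or none is -/
theorem edge_side {V : Type} [Fintype V] {T D : Finset (Finset V)} (hT : Surf T) (hD : D ⊆ T)
    {x v : V} (hxv : x ≠ v) (he : ({x, v} : Finset V) ∉ bd T D) {t t' : Finset V} (ht : t ∈ D)
    (ht' : t' ∈ T) (h1 : x ∈ t) (h2 : v ∈ t) (h3 : x ∈ t') (h4 : v ∈ t') : t' ∈ D := by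
  have hsub : ∀ s : Finset V, ({x, v} : Finset V) ⊆ s ↔ x ∈ s ∧ v ∈ s := by
    intro s
    rw [insert_subset_iff, singleton_subset_iff]
  have hed : ({x, v} : Finset V) ∈ ed T := by
    simp only [ed, mem_filter, mem_univ, true_and]
    exact ⟨card_pair hxv, t', ht', (hsub t').mpr ⟨h3, h4⟩⟩
  have hev : Even (D.filter (fun s => ({x, v} : Finset V) ⊆ s)).card := by
    by_contra hodd
    exact he (mem_filter.mpr ⟨hed, Nat.not_even_iff_odd.mp hodd⟩)
  have htwo : (T.filter (fun s => x ∈ s ∧ v ∈ s)).card = 2 :=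
    hT.two x v ⟨hxv, t', ht', h3, h4⟩
  have hss : D.filter (fun s => ({x, v} : Finset V) ⊆ s) ⊆ T.filter (fun s => x ∈ s ∧ v ∈ s) := by
    intro s hs
    rw [mem_filter] at hs ⊢
    exact ⟨hD hs.1, (hsub s).mp hs.2⟩
  have hpos : 0 < (D.filter (fun s => ({x, v} : Finset V) ⊆ s)).card :=
    card_pos.mpr ⟨t, mem_filter.mpr ⟨ht, (hsub t).mpr ⟨h1, h2⟩⟩⟩
  have hle := card_le_card hss
  have hcard : (D.filter (fun s => ({x, v} : Finset V) ⊆ s)).card = 2 := by
    obtain ⟨m, hm⟩ := hev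
    omega
  have heq := eq_of_subset_of_card_le hss (by rw [hcard, htwo])
  have hmem : t' ∈ T.filter (fun s => x ∈ s ∧ v ∈ s) := mem_filter.mpr ⟨ht', h3, h4⟩
  rw [← heq] at hmem
  exact (mem_filter.mp hmem).1

/-- if no edge at `x` is in the boundary of `D`, all the triangles at `x` are in `D` or none is -/
theorem vertex_side {V : Type} [Fintype V] {T D : Finset (Finset V)} (hT : Surf T) (hD : D ⊆ T)
    {x : V} (hx : ∀ e ∈ bd T D, x ∉ e) {t t' : Finset V} (ht : t ∈ D) (ht' : t' ∈ T)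
    (h1 : x ∈ t) (h2 : x ∈ t') : t' ∈ D := by
  have hex : ∀ s ∈ T, x ∈ s → ∃ u ∈ s, x ≠ u := by
    intro s hs hxs
    have hc := hT.card s hs
    obtain ⟨u, hu, hne⟩ := exists_mem_ne (s := s) (by omega) x
    exact ⟨u, hu, hne.symm⟩
  have hedge : ∀ u, ({x, u} : Finset V) ∉ bd T D := fun u hu =>
    hx _ hu (mem_insert_self x {u})
  obtain ⟨u, hut, hxu⟩ := hex t (hD ht) h1
  obtain ⟨u', hut', hxu'⟩ := hex t' ht' h2
  have hreach := hT.link x u u' ⟨hxu, t, hD ht, h1, hut⟩ ⟨hxu', t', ht', h2, hut'⟩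
  have hP : ∀ s ∈ T, x ∈ s → u ∈ s → s ∈ D := fun s hs h3 h4 =>
    edge_side hT hD hxu (hedge u) ht hs h1 hut h3 h4
  have hstep : ∀ a b, (lk T x).Adj a b → (∀ s ∈ T, x ∈ s → a ∈ s → s ∈ D) →
      ∀ s ∈ T, x ∈ s → b ∈ s → s ∈ D := by
    rintro a b ⟨_, _, hb, r, hr, h3, h4, h5⟩ ha s hs h6 h7
    exact edge_side hT hD (Ne.symm hb) (hedge b) (ha r hr h3 h4) hs h3 h5 h6 h7
  have hall : ∀ a b, (lk T x).Reachable a b → (∀ s ∈ T, x ∈ s → a ∈ s → s ∈ D) →
      ∀ s ∈ T, x ∈ s → b ∈ s → s ∈ D := by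
    rintro a b ⟨p⟩
    induction p with
    | nil => exact fun h => h
    | cons h _ ih => exact fun ha => ih (hstep _ _ h ha)
  exact hall u u' hreach hP t' ht' h2 hut'

/-- PACKET KC-DB. -/
theorem db (hEV : StmtEV) (hRK : StmtRK) : StmtDB := by
  intro V _ T hT D z hD hz
  obtain ⟨_, _, _, _, hbT, hb0⟩ := hEV V T hT
  constructor
  · have hDne : D.Nonempty := by
      rw [nonempty_iff_ne_empty]
      rintro rfl
      have := hD.bdy
      rw [bd_empty] at this
      rw [← this] at hz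
      exact not_nonempty_empty hz
    have hW : (vs D).Nonempty := by
      obtain ⟨t, ht⟩ := hDne
      have hc := hT.card t (hD.sub ht)
      obtain ⟨v, hv⟩ := card_pos.mp (by omega : 0 < t.card)
      exact ⟨v, mem_filter.mpr ⟨mem_univ v, t, ht, hv⟩⟩
    have hee : ∀ e ∈ ed D, e ⊆ vs D := by
      intro e he v hv
      obtain ⟨_, _, t, ht, h2⟩ := mem_filter.mp he
      exact mem_filter.mpr ⟨mem_univ v, t, ht, h2 hv⟩
    have htt : ∀ t ∈ D, ∀ e ∈ ed T, e ⊆ t → e ∈ ed D := by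
      intro t ht e he h2
      obtain ⟨_, h3, _⟩ := mem_filter.mp he
      exact mem_filter.mpr ⟨mem_univ e, h3, t, ht, h2⟩
    have hco : ∀ u ∈ vs D, ∀ v ∈ vs D, (gr (ed D)).Reachable u v := by
      rw [gr_ed]
      exact hD.conn
    refine (hRK V T hT (vs D) (ed D) D hW (ed_mono hD.sub) hee hD.sub htt hco).2 ?_ ?_
    · have := hD.euler
      omega
    · intro D' hD' hb
      rcases hb0 D' (hD'.trans hD.sub) hb with h | h
      · exact h
      · exfalso
        have h1 : D = T := subset_antisymm hD.sub (h ▸ hD')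
        have h2 := hD.bdy
        rw [h1, hbT] at h2
        rw [← h2] at hz
        exact not_nonempty_empty hz
  · intro x hx t ht t' ht' h1 h2 h3
    rw [← hD.bdy] at hx
    exact vertex_side hT hD.sub hx h3 ht' h1 h2

end Pool.Agent.Helper13.KC
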