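import Pool.Agent.Helper53.KC.Goals3

/-!
# MP_8c9d5b_co: packet KC-LAY
-/

namespace Pool.Agent.Helper13.KC

open Finset Pool.Agent.Helper53.KC

/-- The `r`-set with the trace `C.erase e` on `C` and the rest `X'`. -/
def gl {n m : ℕ} (ι : Fin m ↪ Fin n) (C : Finset (Fin n)) (e : Fin n) (X' : Finset (Fin m)) :
    Finset (Fin n) := X'.map ι ∪ C.erase e

theorem lay : LayStmt := by
  classical
  intro n r C hc1 hcr hrn
  have hcc : (Cᶜ).card = n - C.card := by
    rw [card_compl, Fintype.card_fin]
  set ι : Fin (n - C.card) ↪ Fin n := ((Cᶜ).orderEmbOfFin hcc).toEmbedding with hι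
  have hmem : ∀ i, ι i ∉ C := by
    intro i
    have := Finset.orderEmbOfFin_mem (Cᶜ) hcc i
    exact mem_compl.1 this
  have hran : ∀ x, x ∉ C → ∃ i, ι i = x := by
    intro x hx
    have h := Finset.range_orderEmbOfFin (Cᶜ) hcc
    have hx' : x ∈ Set.range ((Cᶜ).orderEmbOfFin hcc) := by
      rw [h]
      simpa using hx
    exact hx'
  have hdisj : ∀ (e : Fin n) (X' : Finset (Fin (n - C.card))), Disjoint (X'.map ι) (C.erase e) := by
    intro e X'
    rw [disjoint_left]
    intro x hx hx2
    obtain ⟨i, _, rfl⟩ := mem_map.1 hx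
    exact hmem i (mem_of_mem_erase hx2)
  have hcard : ∀ e ∈ C, ∀ X' : Finset (Fin (n - C.card)),
      (gl ι C e X').card = X'.card + (C.card - 1) := by
    intro e he X'
    rw [gl, card_union_of_disjoint (hdisj e X'), card_map, card_erase_of_mem he]
  have hint : ∀ (e : Fin n) (X' Y' : Finset (Fin (n - C.card))),
      gl ι C e X' ∩ gl ι C e Y' = gl ι C e (X' ∩ Y') := by
    intro e X' Y'
    unfold gl
    rw [map_inter, inter_union_distrib_right]
  set T := ((V (n - C.card) (r + 1 - C.card) \ ∅).powerset.filter Stb) with hT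
  set Φ : Finset (Finset (Fin n)) → (C → Finset (Finset (Fin (n - C.card)))) := fun S e =>
    (V (n - C.card) (r + 1 - C.card)).filter fun X' => gl ι C e X' ∈ S with hΦ
  have hmaps : ∀ S ∈ (Ly r C).powerset.filter Stb, Φ S ∈ Fintype.piFinset (fun _ : C => T) := by
    intro S hS
    rw [mem_filter] at hS
    rw [Fintype.mem_piFinset]
    intro e
    rw [hT, mem_filter, mem_powerset]
    refine ⟨?_, ?_⟩
    · rw [sdiff_empty]
      exact filter_subset _ _
    · intro X' hX' Y' hY' hadj
      simp only [hΦ, mem_filter] at hX' hY'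
      refine hS.2 _ hX'.2 _ hY'.2 ⟨?_, ?_⟩
      · rw [hcard e e.2, hcard e e.2, hadj.1]
      · rw [hint, hcard e e.2, hcard e e.2]
        have := hadj.2
        omega
  have hback : ∀ S₁ S₂ : Finset (Finset (Fin n)), S₁ ⊆ Ly r C → Φ S₁ = Φ S₂ → S₁ ⊆ S₂ := by
    intro S₁ S₂ h₁ h X hX
    have hXL := h₁ hX
    rw [Ly, mem_filter, V, mem_powersetCard] at hXL
    have hX1 : (C \ X).card = 1 := by
      have h2 := card_sdiff_add_card_inter C X
      rw [inter_comm] at h2
      have h3 := hXL.2
      omega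
    obtain ⟨e, he⟩ := card_eq_one.1 hX1
    have heC : e ∈ C := by
      have : e ∈ C \ X := by rw [he]; exact mem_singleton_self e
      exact (mem_sdiff.1 this).1
    have hXC : X ∩ C = C.erase e := by
      ext x
      rw [mem_inter, mem_erase]
      constructor
      · rintro ⟨hx1, hx2⟩
        refine ⟨?_, hx2⟩
        rintro rfl
        have : x ∈ C \ X := by rw [he]; exact mem_singleton_self x
        exact (mem_sdiff.1 this).2 hx1
      · rintro ⟨hx1, hx2⟩
        refine ⟨?_, hx2⟩
        by_contra hx3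
        have : x ∈ C \ X := mem_sdiff.2 ⟨hx2, hx3⟩
        rw [he, mem_singleton] at this
        exact hx1 this
    set X' : Finset (Fin (n - C.card)) := univ.filter fun i => ι i ∈ X with hX'
    have hXg : gl ι C e X' = X := by
      unfold gl
      rw [← hXC]
      ext x
      rw [mem_union, mem_map, mem_inter]
      constructor
      · rintro (⟨i, hi, rfl⟩ | h)
        · exact (mem_filter.1 hi).2
        · exact h.1
      · intro hx
        by_cases hxC : x ∈ C
        · exact Or.inr ⟨hx, hxC⟩
        · obtain ⟨i, hi⟩ := hran x hxC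
          refine Or.inl ⟨i, ?_, hi⟩
          rw [hX', mem_filter]
          exact ⟨mem_univ _, by rw [hi]; exact hx⟩
    have hX'V : X' ∈ V (n - C.card) (r + 1 - C.card) := by
      rw [V, mem_powersetCard]
      refine ⟨subset_univ _, ?_⟩
      have h2 := hcard e heC X'
      rw [hXg, hXL.1.2] at h2
      omega
    have h3 : X' ∈ Φ S₁ ⟨e, heC⟩ := by
      simp only [hΦ, mem_filter]
      exact ⟨hX'V, by rw [hXg]; exact hX⟩
    rw [h] at h3
    simp only [hΦ, mem_filter] at h3
    rw [hXg] at h3
    exact h3.2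
  have hinj : Set.InjOn Φ ((Ly r C).powerset.filter Stb : Finset (Finset (Finset (Fin n)))) := by
    intro S₁ h₁ S₂ h₂ h
    rw [mem_coe, mem_filter, mem_powerset] at h₁ h₂
    exact Subset.antisymm (hback S₁ S₂ h₁.1 h) (hback S₂ S₁ h₂.1 h.symm)
  have hle := card_le_card_of_injOn Φ hmaps hinj
  refine hle.trans (le_of_eq ?_)
  rw [Fintype.card_piFinset]
  simp only [prod_const, card_univ, Fintype.card_coe]
  unfold istab
  rw [hT]

end Pool.Agent.Helper13.KC
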