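import Pool.Agent.Helper53.KC.Goals2

/-!
# KC-NUM2: the choice of the parameters

Proof of `Pool.Agent.Helper53.KC.Num2Stmt` from `BlStmt` and `CenStmt`.
-/

namespace Pool.Agent.Helper13.KC

open Finset Pool.Agent.Helper53.KC

theorem bl_le_pow (m u : ℕ) : bl m u ≤ (m + 1) ^ u := by
  unfold bl
  rw [add_pow]
  refine sum_le_sum fun j hj => ?_
  have h1 : j ≤ u := by
    rw [mem_range] at hj
    omega
  rw [one_pow, mul_one]
  calc m.choose j ≤ m ^ j := Nat.choose_le_pow m j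
    _ = m ^ j * 1 := (mul_one _).symm
    _ ≤ m ^ j * u.choose j := Nat.mul_le_mul_left _ (Nat.choose_pos h1)

theorem choose21 (t : ℕ) (ht : 40 ≤ t) :
    (t : ℝ) ^ 21 ≤ 2 ^ 21 * (Nat.factorial 21 : ℝ) * (t.choose 21 : ℝ) := by
  have h1 := Nat.pow_le_choose 21 t (α := ℝ)
  have h2 : ((t + 1 - 21 : ℕ) : ℝ) = (t : ℝ) - 20 := by
    rw [Nat.cast_sub (by omega)]
    push_cast
    ring
  rw [h2, div_le_iff₀ (by positivity)] at h1
  have h3 : (t : ℝ) / 2 ≤ (t : ℝ) - 20 := by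
    have : (40 : ℝ) ≤ t := by exact_mod_cast ht
    linarith
  have h4 : ((t : ℝ) / 2) ^ 21 ≤ ((t : ℝ) - 20) ^ 21 :=
    pow_le_pow_left₀ (by positivity) h3 21
  rw [div_pow] at h4
  have h5 := h4.trans h1
  rw [div_le_iff₀ (by positivity)] at h5
  linarith

theorem ev1 : ∀ᶠ x : ℝ in Filter.atTop, 100 * (Real.logb 2 x) ^ 2 + 1 ≤ x ^ ((1 : ℝ) / 16) := by
  have h1 := isLittleO_log_rpow_rpow_atTop (s := (1 : ℝ) / 16) (2 : ℝ) (by norm_num)
  have hc : (0 : ℝ) < (Real.log 2) ^ 2 / 200 := by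
    have := Real.log_pos (by norm_num : (1 : ℝ) < 2)
    positivity
  have h2 := h1.bound hc
  have h3 : ∀ᶠ x : ℝ in Filter.atTop, (2 : ℝ) ≤ x ^ ((1 : ℝ) / 16) :=
    (tendsto_rpow_atTop (by norm_num : (0 : ℝ) < 1 / 16)).eventually_ge_atTop 2
  filter_upwards [h2, h3, Filter.eventually_ge_atTop (1 : ℝ)] with x hx hx2 hx1
  have hl2 := Real.log_pos (by norm_num : (1 : ℝ) < 2)
  have hlx : 0 ≤ Real.log x := Real.log_nonneg hx1
  have hpow : 0 ≤ x ^ ((1 : ℝ) / 16) := Real.rpow_nonneg (by linarith) _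
  rw [Real.norm_of_nonneg (Real.rpow_nonneg hlx _), Real.norm_of_nonneg hpow] at hx
  have h4 : Real.log x ^ (2 : ℝ) = Real.log x ^ 2 := by
    rw [← Real.rpow_natCast]
    norm_num
  rw [h4] at hx
  have h5 : (Real.logb 2 x) ^ 2 ≤ x ^ ((1 : ℝ) / 16) / 200 := by
    unfold Real.logb
    rw [div_pow, div_le_iff₀ (by positivity)]
    calc Real.log x ^ 2 ≤ Real.log 2 ^ 2 / 200 * x ^ ((1 : ℝ) / 16) := hx
      _ = x ^ ((1 : ℝ) / 16) / 200 * Real.log 2 ^ 2 := by ring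
  linarith

/-- NUM2. -/
theorem num2 (hBL : BlStmt) (hCEN : CenStmt) : Num2Stmt := by
  obtain ⟨⟨n₁, hn₁⟩, -⟩ := hCEN
  have h3 : ∀ᶠ x : ℝ in Filter.atTop, (2 : ℝ) ^ 60 + 1 ≤ x ^ ((1 : ℝ) / 16) :=
    (tendsto_rpow_atTop (by norm_num : (0 : ℝ) < 1 / 16)).eventually_ge_atTop _
  obtain ⟨X, hX⟩ := Filter.eventually_atTop.mp (ev1.and h3)
  refine ⟨max n₁ (max ⌈X⌉₊ 2), fun n hn r hc => ?_⟩
  have hnn : n₁ ≤ n := (le_max_left _ _).trans hn
  have hnX : X ≤ n := by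
    have h4 : ⌈X⌉₊ ≤ n := (le_max_left _ _).trans ((le_max_right _ _).trans hn)
    exact (Nat.le_ceil X).trans (by exact_mod_cast h4)
  have hn2 : 2 ≤ n := (le_max_right _ _).trans ((le_max_right _ _).trans hn)
  obtain ⟨hA, hB⟩ := hX n hnX
  obtain ⟨hr1, hr2⟩ := hn₁ n hnn r hc
  obtain ⟨-, hcen⟩ := hc
  set N := n.choose r with hN
  have hrn : r < n := by omega
  have hr0 : 1 ≤ r := by omega
  have hNpos : 0 < N := Nat.choose_pos hrn.le
  have hnpos : 0 < n := by omega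
  set s := ⌊(n : ℝ) ^ ((1 : ℝ) / 16)⌋₊ with hs
  have hx0 : (0 : ℝ) ≤ (n : ℝ) ^ ((1 : ℝ) / 16) := Real.rpow_nonneg (Nat.cast_nonneg _) _
  have hs1 : (s : ℝ) ≤ (n : ℝ) ^ ((1 : ℝ) / 16) := Nat.floor_le hx0
  have hs2 : (n : ℝ) ^ ((1 : ℝ) / 16) < s + 1 := Nat.lt_floor_add_one _
  have hroot : ((n : ℝ) ^ ((1 : ℝ) / 16)) ^ 16 = n := by
    rw [← Real.rpow_natCast, ← Real.rpow_mul (Nat.cast_nonneg _)]
    norm_num
  set Lg := Real.logb 2 n with hLg
  have hLs : 100 * Lg ^ 2 ≤ s := by linarith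
  have hsbig : (2 : ℝ) ^ 60 ≤ s := by linarith
  have hs16 : (s : ℝ) ^ 16 ≤ n := by
    rw [← hroot]
    exact pow_le_pow_left₀ (Nat.cast_nonneg _) hs1 16
  have hs16' : (n : ℝ) ≤ ((s : ℝ) + 1) ^ 16 := by
    conv_lhs => rw [← hroot]
    exact pow_le_pow_left₀ hx0 hs2.le 16
  have hs1R : (1 : ℝ) ≤ s := le_trans (by norm_num) hsbig
  have hsR : (0 : ℝ) < s := by linarith
  have hspos : 0 < s := by exact_mod_cast hsR
  have hs64 : 64 ≤ s := by
    have : (64 : ℝ) ≤ s := le_trans (by norm_num) hsbig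
    exact_mod_cast this
  have hs16n : s ^ 16 ≤ n := by exact_mod_cast hs16
  have hLg1 : 1 ≤ Lg := by
    rw [hLg, Real.le_logb_iff_rpow_le (by norm_num) (by exact_mod_cast hnpos), Real.rpow_one]
    exact_mod_cast hn2
  have hnR : (0 : ℝ) < n := by exact_mod_cast hnpos
  have hNR : (0 : ℝ) < N := by exact_mod_cast hNpos
  have hn2L : (2 : ℝ) ^ Lg = n := by
    rw [hLg, Real.rpow_logb (by norm_num) (by norm_num) hnR]
  have hden : 0 < r * (n - r + 1) := Nat.mul_pos hr0 (Nat.succ_pos _)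
  set P := r * (n - r + 1) with hP
  have hPR : (3 : ℝ) * n ^ 2 ≤ 16 * P := by
    have h1 : (n : ℝ) ≤ 4 * r := by exact_mod_cast hr1
    have h2 : (4 : ℝ) * r ≤ 3 * n := by exact_mod_cast hr2
    have h3 : (P : ℝ) = r * (n - r + 1) := by
      rw [hP]
      push_cast [Nat.cast_sub hrn.le]
      ring
    rw [h3]
    nlinarith [mul_nonneg (sub_nonneg.mpr h1) (sub_nonneg.mpr h2)]
  have hPpos : (0 : ℝ) < P := by exact_mod_cast hden
  have hrR : (r : ℝ) ≤ n := by exact_mod_cast hrn.le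
  set t := s ^ 4 with ht
  have ht40 : 40 ≤ t := by
    calc 40 ≤ 64 ^ 4 := by norm_num
      _ ≤ s ^ 4 := Nat.pow_le_pow_left hs64 4
  have hCpos : 0 < t.choose 21 := Nat.choose_pos (by omega)
  set h := 2 ^ n / t.choose 21 with hh
  set D1 := n * s ^ 6 with hD1
  have hD1pos : 0 < D1 := Nat.mul_pos hnpos (pow_pos hspos 6)
  set u₁ := N / D1 with hu₁
  set a₁ := N * (D1 + r) / P with ha₁
  set D2 := s ^ 12 with hD2
  have hD2pos : 0 < D2 := pow_pos hspos 12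
  set u₂ := a₁ / D2 with hu₂
  have h8 : 8 * s ^ 12 ≤ n := by
    calc 8 * s ^ 12 ≤ s ^ 4 * s ^ 12 := Nat.mul_le_mul_right _ (by omega)
      _ = s ^ 16 := by ring
      _ ≤ n := hs16n
  have ht12 : t ≤ s ^ 12 := Nat.pow_le_pow_right hspos (by norm_num)
  refine ⟨t, D1, D2, 21, h, u₁, a₁, u₂, hr0, hrn, hD1pos, hD2pos, by omega, by omega, ?_,
    Nat.lt_mul_div_succ _ hD1pos, ?_, Nat.lt_mul_div_succ _ hD2pos, ?_⟩
  · rw [mul_comm]
    exact Nat.lt_mul_div_succ _ hCpos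
  · rw [mul_comm (a₁ + 1)]
    exact Nat.lt_mul_div_succ _ hden
  -- the numbers
  have hNn : (0 : ℝ) < N / n := by positivity
  have hsn : (s : ℝ) ≤ n := by
    calc (s : ℝ) = (s : ℝ) ^ 1 := (pow_one _).symm
      _ ≤ (s : ℝ) ^ 16 := pow_le_pow_right₀ hs1R (by norm_num)
      _ ≤ n := hs16
  have hLsq : Lg ≤ Lg ^ 2 := by nlinarith
  -- the first factor
  have e1 : ((bl (2 ^ n) h : ℕ) : ℝ) ^ 2 ≤ (2 : ℝ) ^ ((N : ℝ) / n / (3 * Lg ^ 2)) := by
    have h1 : ((bl (2 ^ n) h : ℕ) : ℝ) ≤ (2 : ℝ) ^ (((n : ℝ) + 1) * h) := by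
      have h2 : bl (2 ^ n) h ≤ 2 ^ ((n + 1) * h) := by
        refine (bl_le_pow _ _).trans ?_
        rw [pow_mul]
        refine Nat.pow_le_pow_left ?_ h
        rw [pow_succ]
        have := Nat.one_le_two_pow (n := n)
        omega
      have h3 : (((n : ℝ) + 1) * h) = (((n + 1) * h : ℕ) : ℝ) := by push_cast; ring
      rw [h3, Real.rpow_natCast]
      exact_mod_cast h2
    have h2 : ((bl (2 ^ n) h : ℕ) : ℝ) ^ 2 ≤ ((2 : ℝ) ^ (((n : ℝ) + 1) * h)) ^ 2 :=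
      pow_le_pow_left₀ (Nat.cast_nonneg _) h1 2
    refine h2.trans ?_
    rw [← Real.rpow_natCast, ← Real.rpow_mul (by norm_num)]
    refine Real.rpow_le_rpow_of_exponent_le (by norm_num) ?_
    -- `2 (n+1) h ≤ N / (3 n Lg^2)`
    have hC : (0 : ℝ) < (t.choose 21 : ℝ) := by exact_mod_cast hCpos
    have h4 : (h : ℝ) ≤ (n : ℝ) ^ 3 * N / (t.choose 21 : ℝ) := by
      have h5 : (h : ℝ) ≤ (2 : ℝ) ^ n / (t.choose 21 : ℝ) := by
        rw [hh]
        refine Nat.cast_div_le.trans (le_of_eq ?_)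
        push_cast
        rfl
      refine h5.trans ?_
      refine div_le_div_of_nonneg_right ?_ hC.le
      exact_mod_cast hcen
    have h6 := choose21 t ht40
    have h7 : (t : ℝ) ^ 21 = (s : ℝ) ^ 84 := by
      rw [ht]
      push_cast
      ring
    rw [h7] at h6
    set K : ℝ := 2 ^ 21 * (Nat.factorial 21 : ℝ) with hK
    have hKpos : 0 < K := by positivity
    have h9 : (n : ℝ) ^ 5 ≤ 2 ^ 80 * (s : ℝ) ^ 80 := by
      have h10 : (n : ℝ) ≤ (2 * s) ^ 16 :=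
        hs16'.trans (pow_le_pow_left₀ (by positivity) (by linarith) 16)
      calc (n : ℝ) ^ 5 ≤ ((2 * s) ^ 16) ^ 5 := pow_le_pow_left₀ hnR.le h10 5
        _ = 2 ^ 80 * (s : ℝ) ^ 80 := by rw [← pow_mul, mul_pow]
    have hs3 : 12 * K * 2 ^ 80 ≤ (s : ℝ) ^ 3 := by
      have h11 : ((2 : ℝ) ^ 60) ^ 3 ≤ (s : ℝ) ^ 3 := pow_le_pow_left₀ (by norm_num) hsbig 3
      refine le_trans ?_ h11
      rw [hK]
      norm_num [Nat.factorial]
    have hLgs : Lg ^ 2 ≤ s := by nlinarith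
    have h12 : 12 * K * n ^ 5 * Lg ^ 2 ≤ (s : ℝ) ^ 84 := by
      calc 12 * K * n ^ 5 * Lg ^ 2 ≤ 12 * K * (2 ^ 80 * (s : ℝ) ^ 80) * s :=
            mul_le_mul (mul_le_mul_of_nonneg_left h9 (by positivity)) hLgs (by positivity)
              (by positivity)
        _ = (12 * K * 2 ^ 80) * (s : ℝ) ^ 81 := by ring
        _ ≤ (s : ℝ) ^ 3 * (s : ℝ) ^ 81 := mul_le_mul_of_nonneg_right hs3 (by positivity)
        _ = (s : ℝ) ^ 84 := by ring
    have h13 : 12 * n ^ 5 * Lg ^ 2 ≤ (t.choose 21 : ℝ) := by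
      have h14 : K * (12 * n ^ 5 * Lg ^ 2) ≤ K * (t.choose 21 : ℝ) := by
        calc K * (12 * n ^ 5 * Lg ^ 2) = 12 * K * n ^ 5 * Lg ^ 2 := by ring
          _ ≤ (s : ℝ) ^ 84 := h12
          _ ≤ K * (t.choose 21 : ℝ) := h6
      exact le_of_mul_le_mul_left h14 hKpos
    have hn1 : (1 : ℝ) ≤ n := by exact_mod_cast hnpos
    have h15 : (n : ℝ) ^ 3 * N / (t.choose 21 : ℝ) ≤ (n : ℝ) ^ 3 * N / (12 * n ^ 5 * Lg ^ 2) :=
      div_le_div_of_nonneg_left (by positivity) (by positivity) h13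
    calc ((n : ℝ) + 1) * h * (2 : ℕ) ≤ (2 * n) * ((n : ℝ) ^ 3 * N / (12 * n ^ 5 * Lg ^ 2)) * 2 := by
          push_cast
          refine mul_le_mul_of_nonneg_right ?_ (by norm_num)
          exact mul_le_mul (by linarith) (h4.trans h15) (Nat.cast_nonneg _) (by positivity)
      _ = (N : ℝ) / n / (3 * Lg ^ 2) := by
          have hL0 : Lg ≠ 0 := by linarith
          field_simp
          ring
  -- the second and the third factor
  have hbln : ((bl n t : ℕ) : ℝ) ≤ (2 : ℝ) ^ ((s : ℝ) ^ 5 / 50) := by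
    have h1 : ((bl n t : ℕ) : ℝ) ≤ ((n : ℝ) + 1) ^ t := by exact_mod_cast bl_le_pow n t
    refine h1.trans ?_
    have h2 : (n : ℝ) + 1 ≤ (2 : ℝ) ^ (2 * Lg) := by
      have h3 : (2 : ℝ) ^ (2 * Lg) = (n : ℝ) * n := by
        rw [two_mul, Real.rpow_add (by norm_num), hn2L]
      rw [h3]
      have h4 : (2 : ℝ) ≤ n := by exact_mod_cast hn2
      nlinarith
    have h5 : ((n : ℝ) + 1) ^ t ≤ ((2 : ℝ) ^ (2 * Lg)) ^ t := pow_le_pow_left₀ (by positivity) h2 t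
    refine h5.trans ?_
    rw [← Real.rpow_natCast, ← Real.rpow_mul (by norm_num)]
    refine Real.rpow_le_rpow_of_exponent_le (by norm_num) ?_
    have h6 : (t : ℝ) = (s : ℝ) ^ 4 := by rw [ht]; push_cast; rfl
    rw [h6]
    have h7 : 2 * Lg ≤ s / 50 := by linarith
    calc 2 * Lg * (s : ℝ) ^ 4 ≤ s / 50 * (s : ℝ) ^ 4 :=
          mul_le_mul_of_nonneg_right h7 (by positivity)
      _ = (s : ℝ) ^ 5 / 50 := by ring
  set B : ℝ := ((bl n t : ℕ) : ℝ) with hBdef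
  have hB0 : 1 ≤ B := by
    rw [hBdef]
    have : 1 ≤ bl n t := by
      unfold bl
      refine le_trans ?_ (single_le_sum (fun _ _ => Nat.zero_le _)
        (mem_range.mpr (Nat.succ_pos t)))
      rw [Nat.choose_zero_right]
    exact_mod_cast this
  have he3 : Real.exp 1 ≤ 3 := (Real.exp_one_lt_d9.le.trans (by norm_num))
  have hbase : Real.exp 1 * (2 * B ^ 2) * (n * (s : ℝ) ^ 6) ≤ (2 : ℝ) ^ ((s : ℝ) ^ 5) := by
    have h1 : B ^ 2 ≤ (2 : ℝ) ^ ((s : ℝ) ^ 5 / 25) := by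
      calc B ^ 2 ≤ ((2 : ℝ) ^ ((s : ℝ) ^ 5 / 50)) ^ 2 := pow_le_pow_left₀ (by linarith) hbln 2
        _ = (2 : ℝ) ^ ((s : ℝ) ^ 5 / 25) := by
            rw [← Real.rpow_natCast, ← Real.rpow_mul (by norm_num)]
            congr 1
            push_cast
            ring
    have h2 : (n : ℝ) * (s : ℝ) ^ 6 ≤ (2 : ℝ) ^ (7 * Lg) := by
      have h3 : (2 : ℝ) ^ (7 * Lg) = (n : ℝ) ^ 7 := by
        rw [mul_comm, Real.rpow_mul (by norm_num), hn2L]
        norm_num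
      rw [h3]
      calc (n : ℝ) * (s : ℝ) ^ 6 ≤ n * (n : ℝ) ^ 6 :=
            mul_le_mul_of_nonneg_left (pow_le_pow_left₀ hsR.le hsn 6) hnR.le
        _ = (n : ℝ) ^ 7 := by ring
    have h4 : Real.exp 1 * 2 ≤ (2 : ℝ) ^ (3 : ℝ) := by
      have : (2 : ℝ) ^ (3 : ℝ) = 8 := by norm_num
      rw [this]
      linarith
    calc Real.exp 1 * (2 * B ^ 2) * (n * (s : ℝ) ^ 6)
        = (Real.exp 1 * 2) * B ^ 2 * (n * (s : ℝ) ^ 6) := by ring
      _ ≤ (2 : ℝ) ^ (3 : ℝ) * (2 : ℝ) ^ ((s : ℝ) ^ 5 / 25) * (2 : ℝ) ^ (7 * Lg) :=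
          mul_le_mul (mul_le_mul h4 h1 (by positivity) (by positivity)) h2 (by positivity)
            (by positivity)
      _ = (2 : ℝ) ^ (3 + (s : ℝ) ^ 5 / 25 + 7 * Lg) := by
          rw [← Real.rpow_add (by norm_num), ← Real.rpow_add (by norm_num)]
      _ ≤ (2 : ℝ) ^ ((s : ℝ) ^ 5) := by
          refine Real.rpow_le_rpow_of_exponent_le (by norm_num) ?_
          have h5 : (s : ℝ) ≤ (s : ℝ) ^ 5 := by
            calc (s : ℝ) = (s : ℝ) ^ 1 := (pow_one _).symm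
              _ ≤ (s : ℝ) ^ 5 := pow_le_pow_right₀ hs1R (by norm_num)
          have h6 : (64 : ℝ) ≤ s := by exact_mod_cast hs64
          linarith
  set m : ℕ := N * (2 * (bl n t) ^ 2) with hm
  have hmR : (m : ℝ) = N * (2 * B ^ 2) := by
    rw [hm, hBdef]
    push_cast
    ring
  have key : ∀ (u : ℕ) (c : ℝ), 1 ≤ c → c ≤ 64 → (u : ℝ) ≤ c * N / (n * (s : ℝ) ^ 6) →
      ((bl m u : ℕ) : ℝ) ≤ (2 : ℝ) ^ (c * (N : ℝ) / n / s) := by
    intro u c hc1 hc2 hu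
    have hy0 : (0 : ℝ) < c * N / (n * (s : ℝ) ^ 6) := by positivity
    have h1 := hBL m u _ hu hy0 (by
      rw [div_le_iff₀ (by positivity), hmR]
      have h2 : c ≤ s := by
        have h6 : (64 : ℝ) ≤ s := by exact_mod_cast hs64
        linarith
      have h3 : (s : ℝ) ≤ n * (s : ℝ) ^ 6 := by
        have : (1 : ℝ) ≤ (s : ℝ) ^ 6 := one_le_pow₀ hs1R
        nlinarith
      have h4 : (1 : ℝ) ≤ 2 * B ^ 2 := by nlinarith
      calc c * (N : ℝ) ≤ (n * (s : ℝ) ^ 6) * N := mul_le_mul_of_nonneg_right (h2.trans h3) hNR.le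
        _ = N * 1 * (n * (s : ℝ) ^ 6) := by ring
        _ ≤ N * (2 * B ^ 2) * (n * (s : ℝ) ^ 6) :=
            mul_le_mul_of_nonneg_right (mul_le_mul_of_nonneg_left h4 hNR.le) (by positivity))
    refine h1.trans ?_
    have h5 : Real.exp 1 * m / (c * N / (n * (s : ℝ) ^ 6)) ≤ (2 : ℝ) ^ ((s : ℝ) ^ 5) := by
      refine le_trans ?_ hbase
      rw [hmR, div_le_iff₀ hy0]
      have h6 : Real.exp 1 * (2 * B ^ 2) * (n * (s : ℝ) ^ 6) * (c * N / (n * (s : ℝ) ^ 6)) =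
          Real.exp 1 * (N * (2 * B ^ 2)) * c := by
        field_simp
      rw [h6]
      have h7 : 0 ≤ Real.exp 1 * (N * (2 * B ^ 2)) := by positivity
      exact le_mul_of_one_le_right h7 hc1
    refine (Real.rpow_le_rpow (by positivity) h5 hy0.le).trans ?_
    rw [← Real.rpow_mul (by norm_num)]
    refine le_of_eq ?_
    congr 1
    field_simp
  have e2 : ((bl m u₁ : ℕ) : ℝ) ≤ (2 : ℝ) ^ (1 * (N : ℝ) / n / s) := by
    refine key u₁ 1 le_rfl (by norm_num) ?_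
    rw [hu₁, one_mul]
    refine Nat.cast_div_le.trans (le_of_eq ?_)
    rw [hD1]
    push_cast
    rfl
  have e3 : ((bl m u₂ : ℕ) : ℝ) ≤ (2 : ℝ) ^ (11 * (N : ℝ) / n / s) := by
    refine key u₂ 11 (by norm_num) (by norm_num) ?_
    have h1 : (a₁ : ℝ) ≤ N * (n * (s : ℝ) ^ 6 + r) / P := by
      rw [ha₁]
      refine Nat.cast_div_le.trans (le_of_eq ?_)
      rw [hD1]
      push_cast
      rfl
    have h2 : (u₂ : ℝ) ≤ a₁ / (s : ℝ) ^ 12 := by
      rw [hu₂]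
      refine Nat.cast_div_le.trans (le_of_eq ?_)
      rw [hD2]
      push_cast
      rfl
    have h3 : (N : ℝ) * (n * (s : ℝ) ^ 6 + r) / P ≤ 11 * N * (s : ℝ) ^ 6 / n := by
      rw [div_le_div_iff₀ hPpos hnR]
      have h4 : (1 : ℝ) ≤ (s : ℝ) ^ 6 := one_le_pow₀ hs1R
      have h5 : (n : ℝ) * (s : ℝ) ^ 6 + r ≤ 2 * n * (s : ℝ) ^ 6 := by nlinarith
      calc (N : ℝ) * (n * (s : ℝ) ^ 6 + r) * n ≤ N * (2 * n * (s : ℝ) ^ 6) * n :=
            mul_le_mul_of_nonneg_right (mul_le_mul_of_nonneg_left h5 hNR.le) hnR.le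
        _ = (N * (s : ℝ) ^ 6) * (2 * n ^ 2) := by ring
        _ ≤ (N * (s : ℝ) ^ 6) * (11 * P) :=
            mul_le_mul_of_nonneg_left (by nlinarith) (by positivity)
        _ = 11 * N * (s : ℝ) ^ 6 * P := by ring
    refine h2.trans ?_
    rw [div_le_iff₀ (by positivity)]
    refine (h1.trans h3).trans (le_of_eq ?_)
    field_simp
  push_cast
  have hb2 : (0 : ℝ) ≤ ((bl m u₁ : ℕ) : ℝ) := Nat.cast_nonneg _
  have hb3 : (0 : ℝ) ≤ ((bl m u₂ : ℕ) : ℝ) := Nat.cast_nonneg _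
  calc ((bl (2 ^ n) h : ℕ) : ℝ) ^ 2 * ((bl m u₁ : ℕ) : ℝ) * ((bl m u₂ : ℕ) : ℝ)
      ≤ (2 : ℝ) ^ ((N : ℝ) / n / (3 * Lg ^ 2)) * (2 : ℝ) ^ (1 * (N : ℝ) / n / s) *
        (2 : ℝ) ^ (11 * (N : ℝ) / n / s) :=
        mul_le_mul (mul_le_mul e1 e2 hb2 (by positivity)) e3 hb3 (by positivity)
    _ = (2 : ℝ) ^ ((N : ℝ) / n / (3 * Lg ^ 2) + 1 * (N : ℝ) / n / s + 11 * (N : ℝ) / n / s) := by
        rw [← Real.rpow_add (by norm_num), ← Real.rpow_add (by norm_num)]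
    _ ≤ (2 : ℝ) ^ ((N : ℝ) / (n * Lg ^ 2)) := by
        refine Real.rpow_le_rpow_of_exponent_le (by norm_num) ?_
        have hL2 : 0 < Lg ^ 2 := by positivity
        have h1 : (1 : ℝ) / s ≤ 1 / (100 * Lg ^ 2) :=
          one_div_le_one_div_of_le (by positivity) hLs
        have h2 : (N : ℝ) / n / (3 * Lg ^ 2) + 1 * (N : ℝ) / n / s + 11 * (N : ℝ) / n / s =
            N / n * (1 / (3 * Lg ^ 2) + 12 * (1 / s)) := by
          field_simp
          ring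
        have h3 : (N : ℝ) / (n * Lg ^ 2) = N / n * (1 / Lg ^ 2) := by
          field_simp
        rw [h2, h3]
        refine mul_le_mul_of_nonneg_left ?_ hNn.le
        have h4 : (1 : ℝ) / (3 * Lg ^ 2) = 1 / 3 * (1 / Lg ^ 2) := by
          field_simp
        have h5 : (1 : ℝ) / (100 * Lg ^ 2) = 1 / 100 * (1 / Lg ^ 2) := by
          field_simp
        rw [h5] at h1
        rw [h4]
        have h6 : 0 < 1 / Lg ^ 2 := by positivity
        linarith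

end Pool.Agent.Helper13.KC
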